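import Pool.Agent.Helper63.XR.StA

set_option autoImplicit false

namespace Pool.Agent.Helper57.XR

open Pool.Agent.Helper63.XR Finset

/-- the state of the recursion -/
structure PS where
  /-- size -/
  a : ℕ
  /-- capture level -/
  eps : ℝ
  /-- noise -/
  z : ℝ
  /-- product -/
  D : ℕ

private noncomputable def tauS (κ : ℝ) (s : PS) : ℝ := (s.z / 2) ^ 2 / (s.a * κ)

private noncomputable def s0S (κ : ℝ) (s : PS) : ℕ := ⌈(κ + 1) / tauS κ s⌉₊ + 1

private noncomputable def big (x : ℝ) : ℕ := ⌈x⌉₊ + 1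

private lemma le_big (x : ℝ) : x ≤ big x := by
  unfold big
  push_cast
  have := Nat.le_ceil x
  linarith

private lemma one_le_big (x : ℝ) : 1 ≤ big x := by
  unfold big
  omega

private noncomputable def capc (lam : ℝ) (l : ℕ) (e : ℝ) : ℝ :=
  (((lam - 1) / lam) ^ l / 2 ^ (l + 2)) * e ^ 2

private noncomputable def nxt (C K lam κ c0 : ℝ) (l : ℕ) (s : PS) : PS where
  a := big (C * K / (1 / (2 * (s0S κ s : ℝ) ^ 2)) +
    c0 / capc lam (l + 1) (1 / (2 * (s0S κ s : ℝ) ^ 2)) + lam * (lam / C) ^ l * s.D * (4 * K))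
  eps := 1 / (2 * (s0S κ s : ℝ) ^ 2)
  z := min (1 / (2 * (s0S κ s : ℝ) ^ 2)) (s.z / (2 * s.a * (big (C * K / (1 / (2 * (s0S κ s : ℝ) ^ 2)) +
    c0 / capc lam (l + 1) (1 / (2 * (s0S κ s : ℝ) ^ 2)) + lam * (lam / C) ^ l * s.D * (4 * K)) : ℕ)))
  D := s.D * big (C * K / (1 / (2 * (s0S κ s : ℝ) ^ 2)) +
    c0 / capc lam (l + 1) (1 / (2 * (s0S κ s : ℝ) ^ 2)) + lam * (lam / C) ^ l * s.D * (4 * K))

private noncomputable def seq (C K lam κ c0 : ℝ) : ℕ → PS
  | 0 => ⟨big (c0 / capc lam 0 (min 1 ((C - lam) / (4 * (C ^ 2 * K))))),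
      min 1 ((C - lam) / (4 * (C ^ 2 * K))), min 1 ((C - lam) / (4 * (C ^ 2 * K))), 1⟩
  | l + 1 => nxt C K lam κ c0 l (seq C K lam κ c0 l)

private structure Valid (s : PS) : Prop where
  a_pos : 1 ≤ s.a
  eps_pos : 0 < s.eps
  eps_le : s.eps ≤ 1
  z_pos : 0 < s.z
  z_le : s.z ≤ s.eps

private lemma capc_pos {lam : ℝ} (h1 : 1 < lam) (l : ℕ) {e : ℝ} (he : 0 < e) :
    0 < capc lam l e := by
  unfold capc
  have : 0 < (lam - 1) / lam := div_pos (by linarith) (by linarith)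
  positivity

private lemma s0_pos (κ : ℝ) (s : PS) : (1 : ℝ) ≤ s0S κ s := by
  unfold s0S
  push_cast
  have : (0 : ℝ) ≤ (⌈(κ + 1) / tauS κ s⌉₊ : ℝ) := by positivity
  linarith

private lemma valid_seq {C K lam κ c0 : ℝ} (h1 : 1 < lam) (h2 : lam < C) (hK : 1 ≤ K) (l : ℕ) :
    Valid (seq C K lam κ c0 l) := by
  have hC : 0 < C := by linarith
  induction l with
  | zero =>
    have he : 0 < min 1 ((C - lam) / (4 * (C ^ 2 * K))) := by
      apply lt_min (by norm_num)
      apply div_pos (by linarith)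
      positivity
    exact ⟨one_le_big _, he, min_le_left _ _, he, le_rfl⟩
  | succ l ih =>
    have hs := s0_pos κ (seq C K lam κ c0 l)
    have he : 0 < 1 / (2 * (s0S κ (seq C K lam κ c0 l) : ℝ) ^ 2) := by positivity
    refine ⟨one_le_big _, he, ?_, ?_, min_le_left _ _⟩
    · show 1 / (2 * (s0S κ (seq C K lam κ c0 l) : ℝ) ^ 2) ≤ 1
      rw [div_le_one (by positivity)]
      nlinarith
    · apply lt_min he
      apply div_pos ih.z_pos
      have ha : (0 : ℝ) < (seq C K lam κ c0 l).a := by exact_mod_cast ih.a_pos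
      have hb := one_le_big (C * K / (1 / (2 * (s0S κ (seq C K lam κ c0 l) : ℝ) ^ 2)) +
        c0 / capc lam (l + 1) (1 / (2 * (s0S κ (seq C K lam κ c0 l) : ℝ) ^ 2)) +
        lam * (lam / C) ^ l * (seq C K lam κ c0 l).D * (4 * K))
      have hb' : (0 : ℝ) < (big (C * K / (1 / (2 * (s0S κ (seq C K lam κ c0 l) : ℝ) ^ 2)) +
        c0 / capc lam (l + 1) (1 / (2 * (s0S κ (seq C K lam κ c0 l) : ℝ) ^ 2)) +
        lam * (lam / C) ^ l * (seq C K lam κ c0 l).D * (4 * K)) : ℕ) := by exact_mod_cast hb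
      positivity

theorem hPAR : StPar := by
  intro C K lam h1 h2 hK
  have hlam : 0 < lam := by linarith
  have hC : 0 < C := by linarith
  have hr : 0 < lam / C := by positivity
  have hr1 : lam / C < 1 := by rw [div_lt_one hC]; exact h2
  obtain ⟨n, hn⟩ := exists_pow_lt_of_lt_one (show (0 : ℝ) < 1 / (4 * K) by positivity) hr1
  set k := n + 1 with hk
  set κ : ℝ := (k : ℝ) + 2 with hκ
  have hκ0 : 0 < κ := by positivity
  set c0 : ℝ := (k + 1 : ℝ) * (4 * k * C * K * ((k : ℝ) + 2) ^ 2) with hc0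
  have hc00 : 0 ≤ c0 := by positivity
  set s := seq C K lam κ c0 with hs
  have hv : ∀ l, Valid (s l) := fun l => valid_seq h1 h2 hK l
  have ha : ∀ l, (1 : ℝ) ≤ (s l).a := fun l => by exact_mod_cast (hv l).a_pos
  have hD : ∀ l, (s l).D = ∏ i ∈ Finset.Icc 1 l, (s i).a := by
    intro l
    induction l with
    | zero => rfl
    | succ l ih =>
      rw [Finset.prod_Icc_succ_top (by omega), ← ih]
      rfl
  have htau : ∀ l, 0 < tauS κ (s l) := by
    intro l
    have := (hv l).z_pos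
    have := ha l
    unfold tauS
    positivity
  have hcap : ∀ l, c0 ≤ capc lam l (s l).eps * (s l).a := by
    intro l
    have hcp := capc_pos h1 l (hv l).eps_pos
    rw [← div_le_iff₀' hcp]
    cases l with
    | zero => exact le_big _
    | succ l =>
      refine le_trans ?_ (le_big _)
      have e1 : (s (l + 1)).eps = 1 / (2 * (s0S κ (s l) : ℝ) ^ 2) := rfl
      rw [e1]
      have p1 : 0 ≤ C * K / (1 / (2 * (s0S κ (s l) : ℝ) ^ 2)) := by positivity
      have p2 : 0 ≤ lam * (lam / C) ^ l * (s l).D * (4 * K) := by positivity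
      linarith
  have hkl : ∀ l, ((k - (l + 1) : ℕ) : ℝ) + 1 ≤ κ := by
    intro l
    have : ((k - (l + 1) : ℕ) : ℝ) ≤ (k : ℝ) := by
      exact_mod_cast Nat.sub_le _ _
    rw [hκ]
    linarith
  refine ⟨k, fun l => (s l).a, fun l => (s l).eps, fun l => tauS κ (s l), fun l => (s l).z,
    fun l => s0S κ (s l), by omega, ?_⟩
  refine ⟨fun l => (hv l).a_pos, fun l _ => ⟨(hv l).eps_pos, (hv l).eps_le⟩,
    fun l _ => ⟨(hv l).z_pos, (hv l).z_le⟩, fun l _ => htau l, ?_, ?_, ?_, ?_, ?_, ?_, ?_, ?_, ?_⟩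
  · -- eps0
    have e0 : (s 0).eps ≤ (C - lam) / (4 * (C ^ 2 * K)) := min_le_right _ _
    have hp : 0 < C ^ 2 * K := by positivity
    calc (s 0).eps * (C ^ 2 * K) ≤ (C - lam) / (4 * (C ^ 2 * K)) * (C ^ 2 * K) := by gcongr
      _ = (C - lam) / 4 := by field_simp
  · -- flat
    intro l hl _
    obtain ⟨m, rfl⟩ : ∃ m, l = m + 1 := ⟨l - 1, by omega⟩
    have he := (hv (m + 1)).eps_pos
    have h3 : C * K / (s (m + 1)).eps ≤ (s (m + 1)).a := by
      refine le_trans ?_ (le_big _)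
      have e1 : (s (m + 1)).eps = 1 / (2 * (s0S κ (s m) : ℝ) ^ 2) := rfl
      rw [e1]
      have p1 : 0 ≤ c0 / capc lam (m + 1) (1 / (2 * (s0S κ (s m) : ℝ) ^ 2)) := by
        apply div_nonneg hc00
        rw [← e1]
        exact (capc_pos h1 _ he).le
      have p2 : 0 ≤ lam * (lam / C) ^ m * (s m).D * (4 * K) := by positivity
      linarith
    have ha' : (0 : ℝ) < (s (m + 1)).a := by linarith [ha (m + 1)]
    rw [div_le_iff₀ he] at h3
    rw [div_le_iff₀ ha']
    linarith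
  · -- sig
    intro l _
    have h3 := hkl l
    have h4 : (κ + 1) / tauS κ (s l) < s0S κ (s l) := by
      unfold s0S
      push_cast
      have := Nat.le_ceil ((κ + 1) / tauS κ (s l))
      linarith
    rw [div_lt_iff₀ (htau l)] at h4
    linarith
  · -- sig2
    intro l _
    show (s0S κ (s l) : ℝ) ^ 2 * (2 * (1 / (2 * (s0S κ (s l) : ℝ) ^ 2))) ≤ 1
    have hs0 := s0_pos κ (s l)
    have : (s0S κ (s l) : ℝ) ^ 2 * (2 * (1 / (2 * (s0S κ (s l) : ℝ) ^ 2))) = 1 := by
      field_simp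
    rw [this]
  · -- ins
    intro l _
    have ha' : (0 : ℝ) < (s l).a := by linarith [ha l]
    have e1 : tauS κ (s l) * (s l).a * κ = ((s l).z / 2) ^ 2 := by
      unfold tauS
      field_simp
    rw [← e1]
    have := htau l
    exact mul_le_mul_of_nonneg_left (hkl l) (by positivity)
  · -- noi
    intro l _
    have ha1 := ha l
    have ha2 := ha (l + 1)
    have hz := (hv l).z_pos
    have hz' := (hv (l + 1)).z_pos
    have h3 : (s (l + 1)).z ≤ (s l).z / (2 * (s l).a * (s (l + 1)).a) := min_le_right _ _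
    have h4 : (s (l + 1)).z ^ 2 ≤ ((s l).z / (2 * (s l).a * (s (l + 1)).a)) ^ 2 := by gcongr
    calc ((s l).a : ℝ) * (s (l + 1)).a * (s (l + 1)).z ^ 2
        ≤ ((s l).a : ℝ) * (s (l + 1)).a * ((s l).z / (2 * (s l).a * (s (l + 1)).a)) ^ 2 := by gcongr
      _ = ((s l).z / 2) ^ 2 / (((s l).a : ℝ) * (s (l + 1)).a) := by field_simp
      _ ≤ ((s l).z / 2) ^ 2 := by
          apply div_le_self (by positivity)
          nlinarith
  · -- cap
    intro l _
    exact hcap l
  · -- err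
    intro l _
    rw [← hD l]
    refine le_trans ?_ (le_big _)
    have he := (hv (l + 1)).eps_pos
    have e1 : (s (l + 1)).eps = 1 / (2 * (s0S κ (s l) : ℝ) ^ 2) := rfl
    have p1 : 0 ≤ c0 / capc lam (l + 1) (1 / (2 * (s0S κ (s l) : ℝ) ^ 2)) := by
      apply div_nonneg hc00
      rw [← e1]
      exact (capc_pos h1 _ he).le
    have p2 : 0 ≤ C * K / (1 / (2 * (s0S κ (s l) : ℝ) ^ 2)) := by positivity
    linarith
  · -- last
    have h3 : (lam / C) ^ k ≤ (lam / C) ^ n := pow_le_pow_of_le_one hr.le hr1.le (by omega)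
    have h4 : (lam / C) ^ k ≤ 1 / (4 * K) := h3.trans hn.le
    calc (lam / C) ^ k * (4 * K) ≤ 1 / (4 * K) * (4 * K) := by gcongr
      _ = 1 := by field_simp

end Pool.Agent.Helper57.XR
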